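import Pool.Agent.Q138.PS.UQ
import Pool.Agent.Results.MP_d4e2f9_lc.AlmostAllDegrees

/-!
# Weak evasiveness for almost all numbers of variables `⌊α P(m)⌋` and small transitive groups

For every `j` there is `K(j)` such that the following holds. Let `q ≥ 2`. Outside a set of real numbers of Hausdorff dimension at
most `q / (q + 1 / (q 2 ^ (q - 1)))` (that is `8 / 9` for `q = 2`) every `α > 0` has for each `j` an `η > 0` such that for all
large `N`, ALL `s ≤ N ^ η` and ALL integral polynomials `P` of degree `q` with positive leading coefficient and coefficients of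
size at most `N ^ η`, for all but `N / j` of the `m ≤ N`, with `n = ⌊α P(m)⌋`: every non-constant monotone Boolean function of `n`
variables which is invariant under a transitive group of order at most `s n` has decision tree complexity at least
`n / (s log n) ^ K(j)`.
-/

set_option autoImplicit false

namespace Pool.Agent.Results.MP_d4e2f9_lc.DegreesAlongRealMultiples

open Finset Filter Topology
open Pool.Agent.Q138.PS
open Pool.Agent.Results.MP_d4e2f9_lc.AlmostAllDegrees (Bound)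

open Classical in
/-- the number of the `1 ≤ m ≤ N` for which `Bound n s ((s log n) ^ K)` fails for `n = ⌊α P(m)⌋` -/
noncomputable def bad (K s : ℕ) (α : ℝ) (P : Polynomial ℤ) (N : ℕ) : ℕ :=
  ((Icc 1 N).filter fun m : ℕ => ¬ Bound ⌊α * ((P.eval (m : ℤ) : ℤ) : ℝ)⌋₊ s
    ((s * Real.log (⌊α * ((P.eval (m : ℤ) : ℤ) : ℝ)⌋₊ : ℕ)) ^ K)).card

theorem bad_eq (K s : ℕ) (α : ℝ) (P : Polynomial ℤ) (N : ℕ) : (bad K s α P N : ℝ) = cnP (XS Bound K s) α P N := by
  classical
  unfold bad cnP cn XS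
  refine congrArg _ (congrArg _ ?_)
  ext n
  simp only [mem_filter]

/-- **Theorem.** -/
theorem result : ∃ K : ℕ → ℕ, ∀ q : ℕ, 2 ≤ q →
    ∃ E : Set ℝ, dimH E ≤ ENNReal.ofReal (q / (q + 1 / ((q : ℝ) * 2 ^ (q - 1)))) ∧ ∀ α : ℝ, 0 < α → α ∉ E →
    ∀ j : ℕ, 1 ≤ j → ∃ η : ℝ, 0 < η ∧ ∀ᶠ N : ℕ in atTop, ∀ s : ℕ, 1 ≤ s → (s : ℝ) ≤ (N : ℝ) ^ η →
    ∀ P : Polynomial ℤ, P.natDegree = q → 0 < P.leadingCoeff → (∀ k, |((P.coeff k : ℤ) : ℝ)| ≤ (N : ℝ) ^ η) →
    (j : ℝ) * bad (K j) s α P N ≤ N := by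
  obtain ⟨K, h⟩ := exc_family Bound (by
    intro n s B B' hB hBB' h1 G hG hcard f hf hne hinv k hk
    exact (h1 G hG hcard f hf hne hinv k hk).trans (by gcongr)) Pool.Agent.Results.MP_d4e2f9_lc.AlmostAllDegrees.result
  refine ⟨K, fun q hq => ?_⟩
  obtain ⟨E, hE, hg⟩ := h q hq
  refine ⟨E, hE, fun α hα hαE j hj => ?_⟩
  obtain ⟨η, hη, h1⟩ := hg α hα hαE j hj
  refine ⟨η, hη, ?_⟩
  filter_upwards [h1] with N hN
  intro s hs1 hs P hdeg hlead hco
  rw [bad_eq]
  exact hN s hs1 hs P hdeg hlead hco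

end Pool.Agent.Results.MP_d4e2f9_lc.DegreesAlongRealMultiples
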