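import Pool.Agent.Q138.PS.ZE
import Pool.Agent.Results.MP_d4e2f9_lc.AlmostAllDegrees

/-!
# Weak evasiveness: few exceptional numbers of variables, and all numbers of variables near multiples of a sequence

(1) Let `1 ≤ s ≤ e ^ Y`, `Y ≥ 1`. For all but at most `3 x s ^ 2 (1 + log (x s)) e ^ (-Y)` of the `n ≤ x` every non-constant
monotone Boolean function of `n` variables which is invariant under a transitive group of order at most `s n` has decision tree
complexity at least `n / exp (62 Y ^ 2)`. (With `Y = c √(log x)` the bound is `n ^ (1 - ε)` for all but `x exp (-c' √(log x))` of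
the `n ≤ x`, where `c' > 0` depends on `ε`.)

(2) For every `ε > 0` there is `c > 0` such that for every sequence of real numbers `l j ≥ exp ((log j) ^ 2 / c)` and almost all real
`θ > 0` the following holds for all large `j`: if `n` is ANY natural number with `|n - θ l(j)| ≤ exp (c √(log l(j)))`, then every
non-constant monotone Boolean function of `n` variables which is invariant under a transitive group of order at most
`n exp (c √(log l(j)))` has decision tree complexity at least `n ^ (1 - ε)`, as in the weak evasiveness conjecture.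

Proof. (1) uses the criterion for good degrees of `AlmostAllDegrees`, and the method of Rankin for the number of the integers with
a large smooth part. (2) follows from (1) by the Borel-Cantelli lemma.
-/

set_option autoImplicit false

namespace Pool.Agent.Results.MP_d4e2f9_lc.DegreesNearSequences

open Filter MeasureTheory
open Pool.Agent.Results.MP_d4e2f9_lc.AlmostAllDegrees (Bound)

theorem Bound.mono {n s s' : ℕ} {B B' : ℝ} (h : Bound n s B) (hs : s' ≤ s) (hB : B ≤ B') : Bound n s' B' := by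
  intro G htr hG f hf hne hinv k hk
  have h1 := h G htr (hG.trans (Nat.mul_le_mul_right n hs)) f hf hne hinv k hk
  exact h1.trans (mul_le_mul_of_nonneg_right hB (Nat.cast_nonneg k))

theorem count (x s : ℕ) (Y : ℝ) (hs : 1 ≤ s) (hY : 1 ≤ Y) (hsY : (s : ℝ) ≤ Real.exp Y) :
    ({n : ℕ | 1 ≤ n ∧ n ≤ x ∧ ¬ Bound n s (Real.exp (62 * Y ^ 2))}.ncard : ℝ) ≤
      3 * (x * (s : ℝ) ^ 2 * (1 + Real.log (x * s)) * Real.exp (-Y)) := by
  obtain ⟨y, hsy, hy⟩ := Pool.Agent.Q138.PS.few_bad_Y x s Y hs hY hsY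
  refine le_trans ?_ hy
  have hsub : {n : ℕ | 1 ≤ n ∧ n ≤ x ∧ ¬ Bound n s (Real.exp (62 * Y ^ 2))} ⊆
      {n : ℕ | 1 ≤ n ∧ n ≤ x ∧ ¬ Pool.Agent.TH669.AD.GoodDeg y s (Real.exp (124 * Y ^ 2)) n} := by
    rintro n ⟨h1, h2, h3⟩
    refine ⟨h1, h2, fun hg => h3 ?_⟩
    intro G htr hG f hf hne hinv k hk
    have h := Pool.Agent.TH669.AD.good_bound (Real.exp_pos _).le hsy hg (by omega) G htr hG f hf hne
      hinv (Pool.Agent.TH669.AD.FS_dec hk)
    have h4 : (Real.exp (62 * Y ^ 2) * k) ^ 2 = Real.exp (124 * Y ^ 2) * (k : ℝ) ^ 2 := by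
      rw [mul_pow, ← Real.exp_nat_mul]
      congr 2
      push_cast
      ring
    rw [← h4] at h
    exact (sq_le_sq₀ (Nat.cast_nonneg n) (mul_nonneg (Real.exp_pos _).le (Nat.cast_nonneg k))).1 h
  have hfin : {n : ℕ | 1 ≤ n ∧ n ≤ x ∧ ¬ Pool.Agent.TH669.AD.GoodDeg y s (Real.exp (124 * Y ^ 2)) n}.Finite :=
    (Set.finite_Icc 1 x).subset fun n hn => ⟨hn.1, hn.2.1⟩
  exact_mod_cast Set.ncard_le_ncard hsub hfin

/-- **Theorem.** -/
theorem result :
    (∀ (x s : ℕ) (Y : ℝ), 1 ≤ s → 1 ≤ Y → (s : ℝ) ≤ Real.exp Y →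
      ({n : ℕ | 1 ≤ n ∧ n ≤ x ∧ ¬ Bound n s (Real.exp (62 * Y ^ 2))}.ncard : ℝ) ≤
        3 * (x * (s : ℝ) ^ 2 * (1 + Real.log (x * s)) * Real.exp (-Y))) ∧
    (∀ ε : ℝ, 0 < ε → ∃ c : ℝ, 0 < c ∧ ∀ l : ℕ → ℝ, (∀ᶠ j : ℕ in atTop, Real.exp (Real.log j ^ 2 / c) ≤ l j) →
      ∀ᵐ θ : ℝ, 0 < θ → ∀ᶠ j : ℕ in atTop, ∀ n : ℕ, |(n : ℝ) - θ * l j| ≤ Real.exp (c * √(Real.log (l j))) →
        ∀ s : ℕ, (s : ℝ) ≤ Real.exp (c * √(Real.log (l j))) → Bound n s ((n : ℝ) ^ ε)) := by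
  refine ⟨count, fun ε hε => ?_⟩
  obtain ⟨a, ha⟩ : ∃ a : ℝ, a = √(ε / 124) := ⟨_, rfl⟩
  have ha0 : 0 < a := by
    rw [ha]
    exact Real.sqrt_pos.2 (by positivity)
  have ha2 : a ^ 2 = ε / 124 := by rw [ha, Real.sq_sqrt (by positivity)]
  obtain ⟨c, hc, h⟩ := Pool.Agent.Q138.PS.seq_ae_exp (fun n s Y => ¬ Bound n s (Real.exp (62 * Y ^ 2))) 3 (by norm_num)
    count a ha0
  refine ⟨c, hc, fun l hl => ?_⟩
  obtain ⟨h1, h2, h3, h4⟩ := h l hl
  filter_upwards [h4] with θ hθ hθ0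
  filter_upwards [hθ hθ0, Pool.Agent.Q138.PS.near_large hθ0 l _ h1 h2, h1.eventually_ge_atTop 1] with j h5 h6 h7 n hn s hs
  have h8 : √(l j) ≤ n := h6 n hn
  have hl0 : 0 < l j := by linarith
  have h9 : 0 < √(l j) := Real.sqrt_pos.2 hl0
  have hn0 : (0 : ℝ) < n := h9.trans_le h8
  have hn1 : 1 ≤ n := by exact_mod_cast hn0
  have h10 := not_not.1 (h5 n hn1 hn)
  refine Bound.mono h10 (Nat.le_floor hs) ?_
  have hL : 0 ≤ Real.log (l j) := Real.log_nonneg h7
  have h11 : 62 * (a * √(Real.log (l j))) ^ 2 = ε * Real.log (√(l j)) := by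
    rw [mul_pow, Real.sq_sqrt hL, ha2, Real.log_sqrt hl0.le]
    ring
  rw [h11, Real.rpow_def_of_pos hn0]
  apply Real.exp_le_exp.2
  have h12 := Real.log_le_log h9 h8
  nlinarith

end Pool.Agent.Results.MP_d4e2f9_lc.DegreesNearSequences
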